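import Pool.Agent.MP_d5eec5_gt.H77.KBot

/-! The normal form steps for a cup and for a cap follow from the step for a crossing. -/

set_option autoImplicit false

namespace Pool.Agent.MP_d5eec5_gt.H77

open Pool.Agent.MP_d5eec5_gt.H48 Kind

theorem n2_of : StmtN1 → StmtN2 := by
  intro h1 l₁
  induction l₁ using List.reverseRecOn with
  | nil =>
    intro l₂ a _ ha
    simp only [List.nil_append] at ha ⊢
    refine FE.of_eq ?_
    rw [bot_cons]
    simp
  | append_singleton p z ih =>
    intro l₂ a hd ha
    have e0 : p ++ [z] ++ l₂ = p ++ z :: l₂ := by simp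
    rw [e0] at hd ha ⊢
    have hA := ih (z :: l₂) a hd ha
    have hd1 : Dbl (p ++ a :: a :: z :: l₂) := dbl_cup.mpr ⟨hd, ha⟩
    have hd1' : Dbl ((p ++ [a]) ++ a :: z :: l₂) := by simpa using hd1
    have hd2 : Dbl (p ++ a :: z :: a :: l₂) := by simpa using hd1'.swap
    have hB := h1 (p ++ [a]) l₂ a z hd1'
    have hC := h1 p (a :: l₂) a z hd2
    simp only [List.append_assoc, List.singleton_append, List.length_append,
      List.length_singleton] at hB ⊢
    have hc : cnt 0 (bot (p ++ z :: l₂)) = p.length + (l₂.length + 1) := by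
      rw [bot_cnt hd]; simp
    have hloc : FE (cnt 0 (bot (p ++ z :: l₂))) [(p.length + 1, cup)]
        [(p.length, cup), (p.length + 1, cr true), (p.length, cr true)] := by
      rw [hc]
      calc FE (p.length + (l₂.length + 1)) [(p.length + 1, cup)]
            [(p.length + 1, cup), (p.length, cr true), (p.length, cr true)] :=
            FE.cons _ (fe_r2 (by simp [win, wout]) true true).symm
        FE (p.length + (l₂.length + 1)) _ [(p.length, cup), (p.length + 1, cr true), (p.length, cr true)] :=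
            FE.right [(p.length, cr true)] (l := [(p.length + 1, cup), (p.length, cr true)])
              (r := [(p.length, cup), (p.length + 1, cr true)]) (fe_pcup (by omega) true true)
    calc FE 0 (bot (p ++ z :: l₂) ++ [(p.length + 1, cup)])
          (bot (p ++ z :: l₂) ++
            [(p.length, cup), (p.length + 1, cr true), (p.length, cr true)]) := FE.left _ hloc
      FE 0 _ (bot (p ++ z :: l₂) ++ [(p.length, cup)] ++ [(p.length + 1, cr true)] ++
            [(p.length, cr true)]) := FE.of_eq (by simp)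
      FE 0 _ (bot (p ++ a :: a :: z :: l₂) ++ [(p.length + 1, cr true)] ++
            [(p.length, cr true)]) := FE.right _ (FE.right _ hA)
      FE 0 _ (bot (p ++ a :: z :: a :: l₂) ++ [(p.length, cr true)]) := FE.right _ hB
      FE 0 _ (bot (p ++ z :: a :: a :: l₂)) := hC

/-- The conclusion of the cap step. -/
def N23C (l₁ l₂ : List ℕ) (x y : ℕ) : Prop :=
  FE 0 (bot (l₁ ++ x :: y :: l₂) ++ [(l₁.length, cap)]) (bot ((l₁ ++ l₂).map (ren y x)))

theorem N23_swapL (h1 : StmtN1) (p q l₂ : List ℕ) (u v x y : ℕ) (hxy : x ≠ y)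
    (hd : Dbl ((p ++ u :: v :: q) ++ x :: y :: l₂)) (h : N23C (p ++ v :: u :: q) l₂ x y) :
    N23C (p ++ u :: v :: q) l₂ x y := by
  unfold N23C at h ⊢
  have hd0 : Dbl (p ++ u :: v :: (q ++ x :: y :: l₂)) := by simpa using hd
  have hd1 := hd0.swap
  have hd2 : Dbl ((p ++ v :: u :: q) ++ x :: y :: l₂) := by simpa using hd1
  have hd3 : Dbl (p.map (ren y x) ++ ren y x v :: ren y x u :: (q ++ l₂).map (ren y x)) := by
    simpa using hd2.cap hxy
  have hA := h1 _ _ _ _ hd1
  have hB := h1 _ _ _ _ hd3
  simp only [List.append_assoc, List.cons_append, List.length_append, List.length_cons,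
    List.map_append, List.map_cons, List.length_map] at h hA hB ⊢
  have hc := bot_cnt hd1
  simp only [List.length_append, List.length_cons] at hc
  calc FE 0 (bot (p ++ u :: v :: (q ++ x :: y :: l₂)) ++ [(p.length + (q.length + 1 + 1), cap)])
        (bot (p ++ v :: u :: (q ++ x :: y :: l₂)) ++ [(p.length, cr true)] ++
          [(p.length + (q.length + 1 + 1), cap)]) := FE.right _ hA.symm
    FE 0 _ (bot (p ++ v :: u :: (q ++ x :: y :: l₂)) ++
          [(p.length, cr true), (p.length + (q.length + 1 + 1), cap)]) := FE.of_eq (by simp)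
    FE 0 _ (bot (p ++ v :: u :: (q ++ x :: y :: l₂)) ++
          [(p.length + (q.length + 1 + 1), cap), (p.length, cr true)]) :=
        FE.left _ (fe_far' (by simp [win]) (by rw [hc]; simp [win]; omega)
          (by simp [win, wout])).symm
    FE 0 _ (bot (p ++ v :: u :: (q ++ x :: y :: l₂)) ++
          [(p.length + (q.length + 1 + 1), cap)] ++ [(p.length, cr true)]) := FE.of_eq (by simp)
    FE 0 _ _ := (FE.right _ h).trans hB

theorem N23_swapR (h1 : StmtN1) (l₁ p q : List ℕ) (u v x y : ℕ) (hxy : x ≠ y)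
    (hd : Dbl (l₁ ++ x :: y :: (p ++ u :: v :: q))) (h : N23C l₁ (p ++ v :: u :: q) x y) :
    N23C l₁ (p ++ u :: v :: q) x y := by
  unfold N23C at h ⊢
  have hd0 : Dbl ((l₁ ++ x :: y :: p) ++ u :: v :: q) := by simpa using hd
  have hd1 := hd0.swap
  have hd2 : Dbl (l₁ ++ x :: y :: (p ++ v :: u :: q)) := by simpa using hd1
  have hd3 : Dbl ((l₁ ++ p).map (ren y x) ++ ren y x v :: ren y x u :: q.map (ren y x)) := by
    simpa using hd2.cap hxy
  have hA := h1 _ _ _ _ hd1
  have hB := h1 _ _ _ _ hd3
  simp only [List.append_assoc, List.cons_append, List.length_append, List.length_cons,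
    List.map_append, List.map_cons, List.length_map] at h hA hB ⊢
  have hc := bot_cnt hd2
  simp only [List.length_append, List.length_cons] at hc
  calc FE 0 (bot (l₁ ++ x :: y :: (p ++ u :: v :: q)) ++ [(l₁.length, cap)])
        (bot (l₁ ++ x :: y :: (p ++ v :: u :: q)) ++
          [(l₁.length + (p.length + 1 + 1), cr true)] ++ [(l₁.length, cap)]) :=
        FE.right _ hA.symm
    FE 0 _ (bot (l₁ ++ x :: y :: (p ++ v :: u :: q)) ++
          [(l₁.length + (p.length + 1 + 1), cr true), (l₁.length, cap)]) := FE.of_eq (by simp)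
    FE 0 _ (bot (l₁ ++ x :: y :: (p ++ v :: u :: q)) ++
          [(l₁.length, cap), (l₁.length + p.length, cr true)]) :=
        FE.left _ (fe_far' (by simp [win]) (by rw [hc]; simp [win]; omega)
          (by simp [win, wout]; omega))
    FE 0 _ (bot (l₁ ++ x :: y :: (p ++ v :: u :: q)) ++
          [(l₁.length, cap)] ++ [(l₁.length + p.length, cr true)]) := FE.of_eq (by simp)
    FE 0 _ _ := (FE.right _ h).trans hB

theorem N23_A (h1 : StmtN1) (h2 : StmtN2) (q : List ℕ) : ∀ (p l₂ : List ℕ) (x y : ℕ), x ≠ y →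
    Dbl ((p ++ x :: q) ++ x :: y :: l₂) → N23C (p ++ x :: q) l₂ x y := by
  induction q with
  | nil =>
    intro p l₂ x y hxy hd
    unfold N23C
    have hd0 : Dbl (p ++ x :: x :: y :: l₂) := by simpa using hd
    obtain ⟨hd1, hx⟩ := dbl_cup.mp hd0
    have hA := h2 p (y :: l₂) x hd1 hx
    have hc := bot_cnt hd1
    simp only [List.length_append, List.length_cons] at hc
    have e : (p ++ [x] ++ l₂).map (ren y x) = (p ++ y :: l₂).map (ren y x) := by
      simp [ren]
    have hm : bot ((p ++ y :: l₂).map (ren y x)) = bot (p ++ y :: l₂) := by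
      apply bot_map
      intro a ha b hb hab
      have ha' : a ≠ x := fun e => hx (e ▸ ha)
      have hb' : b ≠ x := fun e => hx (e ▸ hb)
      unfold ren at hab
      split_ifs at hab <;> omega
    rw [e, hm]
    simp only [List.append_assoc, List.cons_append, List.nil_append, List.length_append,
      List.length_cons, List.length_nil, zero_add]
    calc FE 0 (bot (p ++ x :: x :: y :: l₂) ++ [(p.length + 1, cap)])
          (bot (p ++ y :: l₂) ++ [(p.length, cup)] ++ [(p.length + 1, cap)]) :=
          FE.right _ hA.symm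
      FE 0 _ (bot (p ++ y :: l₂) ++ [(p.length, cup), (p.length + 1, cap)]) := FE.of_eq (by simp)
      FE 0 _ (bot (p ++ y :: l₂) ++ []) := FE.left _ (fe_zig (by rw [hc]; omega))
      FE 0 _ _ := FE.of_eq (by simp)
  | cons u q ih =>
    intro p l₂ x y hxy hd
    apply N23_swapL h1 p q l₂ x u x y hxy hd
    have hd0 : Dbl (p ++ x :: u :: (q ++ x :: y :: l₂)) := by simpa using hd
    have := ih (p ++ [u]) l₂ x y hxy (by simpa using hd0.swap)
    simpa using this

theorem N23_B (h1 : StmtN1) (h2 : StmtN2) (p : List ℕ) : ∀ (l₁ q : List ℕ) (x y : ℕ), x ≠ y →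
    Dbl (l₁ ++ x :: y :: (p ++ y :: q)) → N23C l₁ (p ++ y :: q) x y := by
  induction p using List.reverseRecOn with
  | nil =>
    intro l₁ q x y hxy hd
    unfold N23C
    have hd0 : Dbl ((l₁ ++ [x]) ++ y :: y :: q) := by simpa using hd
    obtain ⟨hd1, hy⟩ := dbl_cup.mp hd0
    have hA := h2 (l₁ ++ [x]) q y hd1 hy
    have hc := bot_cnt hd1
    have e : (l₁ ++ ([] ++ y :: q)).map (ren y x) = (l₁ ++ [x] ++ q).map (ren y x) := by
      simp [ren]
    have hm : bot ((l₁ ++ [x] ++ q).map (ren y x)) = bot (l₁ ++ [x] ++ q) := by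
      apply bot_map
      intro a ha b hb hab
      have ha' : a ≠ y := fun e => hy (e ▸ ha)
      have hb' : b ≠ y := fun e => hy (e ▸ hb)
      simpa [ren, ha', hb'] using hab
    rw [e, hm]
    simp only [List.append_assoc, List.cons_append, List.nil_append, List.length_append,
      List.length_cons, List.length_nil, zero_add] at hA hc ⊢
    calc FE 0 (bot (l₁ ++ x :: y :: y :: q) ++ [(l₁.length, cap)])
          (bot (l₁ ++ x :: q) ++ [(l₁.length + 1, cup)] ++ [(l₁.length, cap)]) :=
          FE.right _ hA.symm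
      FE 0 _ (bot (l₁ ++ x :: q) ++ [(l₁.length + 1, cup), (l₁.length, cap)]) :=
          FE.of_eq (by simp)
      FE 0 _ (bot (l₁ ++ x :: q) ++ []) := FE.left _ (fe_zag (by rw [hc]; omega))
      FE 0 _ _ := FE.of_eq (by simp)
  | append_singleton p u ih =>
    intro l₁ q x y hxy hd
    have e : p ++ [u] ++ y :: q = p ++ u :: y :: q := by simp
    rw [e] at hd ⊢
    apply N23_swapR h1 l₁ p q u y x y hxy hd
    have hd0 : Dbl ((l₁ ++ x :: y :: p) ++ u :: y :: q) := by simpa using hd
    exact ih l₁ (u :: q) x y hxy (by simpa using hd0.swap)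

theorem n3_of : StmtN1 → StmtN2 → StmtN3 := by
  intro h1 h2 l₁ l₂ x y hd hxy
  have hx : x ∈ l₁ ++ l₂ := by
    have h := (hd.perm (perm_mid2 _ _ _ _)).mem_tail
    rcases List.mem_cons.mp h with h | h
    · exact absurd h hxy
    · exact h
  rcases List.mem_append.mp hx with hx | hx
  · obtain ⟨p, q, rfl⟩ := List.append_of_mem hx
    exact N23_A h1 h2 q p l₂ x y hxy hd
  · obtain ⟨p, q, rfl⟩ := List.append_of_mem hx
    have hd' := hd.swap
    have hB : FE 0 _ _ := N23_B h1 h2 p l₁ q y x hxy.symm hd'
    have hA := h1 _ _ _ _ hd'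
    have hc := bot_cnt hd'
    simp only [List.length_append, List.length_cons] at hc
    have hm : bot ((l₁ ++ (p ++ x :: q)).map (ren x y)) =
        bot ((l₁ ++ (p ++ x :: q)).map (ren y x)) := by
      apply bot_congr
      intro a _ b _
      unfold ren
      split_ifs <;> omega
    rw [← hm]
    calc FE 0 (bot (l₁ ++ x :: y :: (p ++ x :: q)) ++ [(l₁.length, cap)])
          (bot (l₁ ++ y :: x :: (p ++ x :: q)) ++ [(l₁.length, cr true)] ++
            [(l₁.length, cap)]) := FE.right _ hA.symm
      FE 0 _ (bot (l₁ ++ y :: x :: (p ++ x :: q)) ++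
            [(l₁.length, cr true), (l₁.length, cap)]) := FE.of_eq (by simp)
      FE 0 _ (bot (l₁ ++ y :: x :: (p ++ x :: q)) ++ [(l₁.length, cap)]) :=
          FE.left _ (fe_r1cap (by rw [hc]; omega) true)
      FE 0 _ _ := hB

end Pool.Agent.MP_d5eec5_gt.H77
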